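import Pool.Agent.R243.HD.RES
import Pool.Agent.R243.HD.UD
import Pool.Agent.R243.HD.GR
import Pool.Agent.R243.HD.OM
import Pool.Agent.R243.HD.RM
import Pool.Agent.R243.HD.BU
import Pool.Agent.R243.HD.CH
import Pool.Agent.R243.HD.VM
import Pool.Agent.R243.HD.LG
import Pool.Agent.R243.HD.CM
import Pool.Agent.R243.HD.HM
import Pool.Agent.R243.HD.RP
import Pool.Agent.R243.HD.JE
import Pool.Agent.R243.HD.UB
import Pool.Agent.R243.HD.TO
import Pool.Agent.R243.HD.HS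
import Pool.Agent.R243.HD.ST
import Pool.Agent.R243.HD.LI
import Pool.Agent.R243.HD.LS

set_option autoImplicit false

/-!
# The four-domain inequality for hyperbolic densities

For simply connected plane domains `D₁`, `D₂` whose union is hyperbolic and every `z ∈ D₁ ∩ D₂`,
`λ_{D₁ ∩ D₂}(z) + λ_{D₁ ∪ D₂}(z) ≤ λ_{D₁}(z) + λ_{D₂}(z)`.
-/

open Set Metric

namespace Pool.Agent.Results.MP_14bd02_an.FourDomainInequality

/-- `f` is a holomorphic covering map of the unit disc onto `D` (the disc is simply connected, so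
this is a holomorphic universal covering map of `D`). -/
def IsUniversalCovering (D : Set ℂ) (f : ℂ → ℂ) : Prop :=
  DifferentiableOn ℂ f (ball 0 1) ∧ f '' ball 0 1 = D ∧
    ∃ h : MapsTo f (ball 0 1) D, IsCoveringMap (Set.MapsTo.restrict f (ball 0 1) D h)

/-- `l = λ_D(z)`: `l * |f'(w)| = 1 / (1 - |w|²)` for a holomorphic universal covering map
`f : 𝔻 → D` and a point `w ∈ 𝔻` with `f w = z`. -/
def IsDensity (D : Set ℂ) (z : ℂ) (l : ℝ) : Prop :=
  ∃ (f : ℂ → ℂ) (w : ℂ), IsUniversalCovering D f ∧ w ∈ ball (0 : ℂ) 1 ∧ f w = z ∧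
    l * ‖deriv f w‖ = 1 / (1 - ‖w‖ ^ 2)

theorem unique_density {D : Set ℂ} {z : ℂ} {l l' : ℝ} (hD : IsOpen D) (h : IsDensity D z l)
    (h' : IsDensity D z l') : l = l' := by
  have aux : ∀ f k : ℂ → ℂ, HD243.Cov D f → HD243.Cov D k → f 0 = k 0 →
      ‖deriv k 0‖ ≤ ‖deriv f 0‖ := by
    intro f k hf hk h0
    have hm : MapsTo k (ball 0 1) D := fun w hw => by rw [← hk.2.1]; exact ⟨w, hw, rfl⟩
    obtain ⟨g, g1, g2, g3, g4⟩ := HD243.t_LI D f k hD hf hk.1 hm h0.symm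
    have hd : deriv k 0 = deriv f 0 * deriv g 0 :=
      HD243.chain0 hf.1 g1 g3 (fun w hw => (g4 w hw).symm)
    have hg1 : ‖deriv g 0‖ ≤ 1 :=
      Complex.norm_deriv_le_one_of_mapsTo_ball (c := (0 : ℂ)) (R := 1) (f := g) g1
        (by rw [g3]; exact fun x hx => ball_subset_closedBall (g2 hx)) one_pos
    rw [hd, norm_mul]
    exact mul_le_of_le_one_right (norm_nonneg _) hg1
  obtain ⟨f, cf, f0, m⟩ := HD243.t_MB D z l h
  obtain ⟨k, ck, k0, m'⟩ := HD243.t_MB D z l' h'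
  have e : ‖deriv f 0‖ = ‖deriv k 0‖ :=
    le_antisymm (aux k f ck cf (k0.trans f0.symm)) (aux f k cf ck (f0.trans k0.symm))
  have hne : ‖deriv f 0‖ ≠ 0 := by
    intro h0
    rw [h0, mul_zero] at m
    exact zero_ne_one m
  rw [← e] at m'
  exact mul_right_cancel₀ hne (m.trans m'.symm)

theorem main : HD243.S_RES := by
  have hUD := HD243.t_UD
  have hLF := HD243.t_LF
  have hGR := HD243.t_GR hUD
  have hOM := HD243.t_OM
  have hCN := HD243.t_CN
  have hRM := HD243.t_RM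
  have hBU := HD243.t_BU
  have hCH := HD243.t_CH hBU hRM hCN hUD
  have hVM := HD243.t_VM hCN hRM hLF hUD
  have hLG := HD243.t_LG
  have hCM := HD243.t_CM hGR hUD
  have hUB := HD243.t_UB
  have hTO := HD243.t_TO HD243.t_RP HD243.t_JE hUB hGR hUD
  have hHS := HD243.t_HS hTO hUB hUD
  have hHM := HD243.t_HM hHS hVM hUD
  have hST := HD243.t_ST hVM hLG hCM hHM hUD
  have hCO := HD243.t_CO hST hCH hOM hLF hUD
  exact HD243.t_RES hCO HD243.t_LI HD243.t_LS HD243.t_MB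

/-- **Theorem.** The value `λ_D(z)` is unique, and
`λ_{D₁ ∩ D₂}(z) + λ_{D₁ ∪ D₂}(z) ≤ λ_{D₁}(z) + λ_{D₂}(z)` for all simply connected domains
`D₁, D₂` whose union is hyperbolic and all `z ∈ D₁ ∩ D₂`. -/
theorem result :
    (∀ (D : Set ℂ) (z : ℂ) (l l' : ℝ), IsOpen D → IsDensity D z l → IsDensity D z l' → l = l') ∧
    ∀ (D₁ D₂ : Set ℂ) (z : ℂ) (l₁ l₂ lI lU : ℝ), IsOpen D₁ → IsOpen D₂ →
      IsSimplyConnected D₁ → IsSimplyConnected D₂ →
      (∃ a b : ℂ, a ≠ b ∧ a ∉ D₁ ∪ D₂ ∧ b ∉ D₁ ∪ D₂) → z ∈ D₁ ∩ D₂ →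
      IsDensity D₁ z l₁ → IsDensity D₂ z l₂ →
      IsDensity (connectedComponentIn (D₁ ∩ D₂) z) z lI → IsDensity (D₁ ∪ D₂) z lU →
      lI + lU ≤ l₁ + l₂ :=
  ⟨fun _ _ _ _ hD h h' => unique_density hD h h', main⟩

end Pool.Agent.Results.MP_14bd02_an.FourDomainInequality
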